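import Mathlib

/-!
The covering code gadget: a code of distance `> 2e` on subsets of a finite type, and for each
codeword `T` a small set `S T`, such that every `ρ`-subset `R` of `V` has `T ⊆ R ⊆ S T` for some
codeword `T`.
-/

open Finset
open scoped symmDiff

namespace Pool.Agent.P.MP_65d1df_lc

variable {U : Type} [DecidableEq U]

theorem sum_symmDiff {G : Type} [AddCommGroup G] (h2 : ∀ g : G, g + g = 0) (H : U → G)
    (A B : Finset U) : ∑ y ∈ A ∆ B, H y = ∑ y ∈ A, H y + ∑ y ∈ B, H y := by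
  have h1 : A ∆ B = (A \ B) ∪ (B \ A) := rfl
  rw [h1, sum_union disjoint_sdiff_sdiff, ← sum_sdiff (s₁ := A ∩ B) (s₂ := A) inter_subset_left,
    ← sum_sdiff (s₁ := A ∩ B) (s₂ := B) inter_subset_right, sdiff_inter_self_left,
    sdiff_inter_self_right]
  have := h2 (∑ y ∈ A ∩ B, H y)
  calc _ = ∑ y ∈ A \ B, H y + ∑ y ∈ B \ A, H y + (∑ y ∈ A ∩ B, H y + ∑ y ∈ A ∩ B, H y) := by
        rw [this, add_zero]
    _ = _ := by abel

/-- Every subset sum is the sum of a subset of size at most `log₂ |G|`. -/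
theorem exists_small_subset {G : Type} [AddCommGroup G] [Fintype G] (h2 : ∀ g : G, g + g = 0)
    (H : U → G) {m : ℕ} (hG : Fintype.card G ≤ 2 ^ m) (J : Finset U) :
    ∃ J' ⊆ J, J'.card ≤ m ∧ ∑ y ∈ J', H y = ∑ y ∈ J, H y := by
  induction J using Finset.strongInduction with
  | H J ih =>
    by_cases hJ : J.card ≤ m
    · exact ⟨J, subset_rfl, hJ, rfl⟩
    have hlt : (univ : Finset G).card < J.powerset.card := by
      rw [card_univ, card_powerset]
      exact hG.trans_lt (Nat.pow_lt_pow_right (by norm_num) (not_le.1 hJ))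
    obtain ⟨A, hA, B, hB, hAB, hs⟩ := exists_ne_map_eq_of_card_lt_of_maps_to hlt
      (f := fun A => ∑ y ∈ A, H y) (fun _ _ => mem_coe.2 (mem_univ _))
    have hA' : A ⊆ J := mem_powerset.1 hA
    have hB' : B ⊆ J := mem_powerset.1 hB
    have hZ : A ∆ B ⊆ J := symmDiff_subset_union.trans (union_subset hA' hB')
    have hZ0 : ∑ y ∈ A ∆ B, H y = 0 := by
      rw [sum_symmDiff h2, hs, h2]
    have hne : (A ∆ B).Nonempty := by
      rw [nonempty_iff_ne_empty]
      exact fun h => hAB (symmDiff_eq_empty.1 h)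
    obtain ⟨J', h1, h3, h4⟩ := ih (J \ (A ∆ B)) (sdiff_ssubset hZ hne)
    refine ⟨J', h1.trans sdiff_subset, h3, ?_⟩
    rw [h4, ← sum_sdiff hZ, hZ0, add_zero]

/-- Many codewords lie inside `R` and miss only few points of `R`. -/
theorem choose_le_card_codewords {G : Type} [AddCommGroup G] [Fintype G] [DecidableEq G]
    (h2 : ∀ g : G, g + g = 0) (H : U → G) {m : ℕ} (hG : Fintype.card G ≤ 2 ^ m) (R : Finset U)
    (j : ℕ) : R.card.choose j ≤ 2 ^ m *
      (R.powerset.filter fun T => ∑ y ∈ T, H y = 0 ∧ (R \ T).card ≤ j + m).card := by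
  have hfix : ∀ s : G, ∃ F ⊆ R, F.card ≤ m ∧ ((∃ J ⊆ R, ∑ y ∈ J, H y = s) → ∑ y ∈ F, H y = s) := by
    intro s
    by_cases h : ∃ J ⊆ R, ∑ y ∈ J, H y = s
    · obtain ⟨J, hJ, hs⟩ := h
      obtain ⟨J', h1, h3, h4⟩ := exists_small_subset h2 H hG J
      exact ⟨J', h1.trans hJ, h3, fun _ => h4.trans hs⟩
    · exact ⟨∅, empty_subset _, by simp, fun h' => absurd h' h⟩
  choose fix hfixR hfixc hfixs using hfix
  set M := R.powerset.filter fun T => ∑ y ∈ T, H y = 0 ∧ (R \ T).card ≤ j + m with hM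
  let φ : Finset U → G × Finset U := fun J =>
    (∑ y ∈ R \ J, H y, R \ (J ∆ fix (∑ y ∈ R \ J, H y)))
  have hsub : ∀ J ∈ powersetCard j R, ∀ s, J ∆ fix s ⊆ R := fun J hJ s =>
    symmDiff_subset_union.trans (union_subset (mem_powersetCard.1 hJ).1 (hfixR s))
  have hmap : ∀ J ∈ powersetCard j R, φ J ∈ (univ : Finset G) ×ˢ M := by
    intro J hJ
    have hJR := (mem_powersetCard.1 hJ).1
    refine mem_product.2 ⟨mem_univ _, mem_filter.2 ⟨mem_powerset.2 sdiff_subset, ?_, ?_⟩⟩
    · have e1 := sum_sdiff (f := H) (hsub J hJ (∑ y ∈ R \ J, H y))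
      have e2 := sum_sdiff (f := H) hJR
      rw [sum_symmDiff h2, hfixs _ ⟨_, sdiff_subset, rfl⟩, add_comm (∑ y ∈ J, H y), e2] at e1
      exact add_eq_right.1 e1
    · simp only [φ]
      rw [Finset.sdiff_sdiff_eq_self (hsub J hJ _)]
      refine (card_le_card symmDiff_subset_union).trans ((card_union_le _ _).trans ?_)
      exact add_le_add (mem_powersetCard.1 hJ).2.le (hfixc _)
  have hinj : Set.InjOn φ (powersetCard j R) := by
    intro J hJ J' hJ' h
    have h1 : ∑ y ∈ R \ J, H y = ∑ y ∈ R \ J', H y := congrArg Prod.fst h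
    have h3 : R \ (J ∆ fix (∑ y ∈ R \ J, H y)) = R \ (J' ∆ fix (∑ y ∈ R \ J', H y)) :=
      congrArg Prod.snd h
    have h4 := congrArg (fun X => R \ X) h3
    rw [Finset.sdiff_sdiff_eq_self (hsub J hJ _), Finset.sdiff_sdiff_eq_self (hsub J' hJ' _),
      h1] at h4
    exact symmDiff_left_injective _ h4
  have := card_le_card_of_injOn φ hmap hinj
  rw [card_powersetCard, card_product, card_univ] at this
  exact this.trans (Nat.mul_le_mul_right _ hG)

/-- A parity check map whose nonempty zero sums have more than `d` terms. -/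
theorem exists_check [Fintype U] {l : ℕ} (hl : l ≠ 0) (hU : Fintype.card U ≤ 2 ^ l) (d : ℕ) :
    ∃ (G : Type) (_ : AddCommGroup G) (_ : Fintype G) (H : U → G), (∀ g : G, g + g = 0) ∧
      Fintype.card G ≤ 2 ^ (d * l) ∧
      ∀ A : Finset U, A.card ≤ d → ∑ y ∈ A, H y = 0 → A = ∅ := by
  classical
  let K := GaloisField 2 l
  have : Fintype K := Fintype.ofFinite K
  have hK : Fintype.card K = 2 ^ l := by
    rw [← Nat.card_eq_fintype_card]; exact GaloisField.card 2 l hl
  obtain ⟨α⟩ : Nonempty (U ↪ K) := Function.Embedding.nonempty_of_card_le (hK ▸ hU)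
  refine ⟨Fin d → K, inferInstance, inferInstance, fun y i => α y ^ (i : ℕ), fun g => ?_, ?_, ?_⟩
  · funext i
    exact CharTwo.add_self_eq_zero (g i)
  · rw [Fintype.card_fun, hK, Fintype.card_fin, ← pow_mul, mul_comm]
  · intro A hA hs
    by_contra hne
    have hpos : 0 < A.card := card_pos.2 (nonempty_iff_ne_empty.2 hne)
    let e := A.equivFin.symm
    have := Matrix.eq_zero_of_forall_pow_sum_mul_pow_eq_zero (R := K)
      (f := fun i => α (e i)) (v := fun _ => 1)
      (α.injective.comp (Subtype.val_injective.comp e.injective)) (fun i => by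
        have h := congrFun hs ⟨i, i.2.trans_le hA⟩
        rw [Finset.sum_apply] at h
        simp only [one_mul]
        rw [e.sum_comp fun y : A => α y ^ (i : ℕ), sum_coe_sort A fun y => α y ^ (i : ℕ)]
        exact h)
    exact one_ne_zero (congrFun this ⟨0, hpos⟩)

/-- First moment argument on a product space. -/
theorem exists_cover {ι β γ : Type} [Fintype ι] [DecidableEq ι] [DecidableEq β]
    (cand : Finset β) (hc : cand.Nonempty) (Rs : Finset γ) (M : γ → Finset ι)
    (good : γ → ι → β → Prop) [∀ R T, DecidablePred (good R T)] {q a : ℝ}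
    (hq : ∀ R ∈ Rs, ∀ T ∈ M R, q * cand.card ≤ (cand.filter (good R T)).card)
    (ha : ∀ R ∈ Rs, a ≤ q * (M R).card) (hRs : (Rs.card : ℝ) < Real.exp a) :
    ∃ f : ι → β, (∀ T, f T ∈ cand) ∧ ∀ R ∈ Rs, ∃ T ∈ M R, good R T (f T) := by
  classical
  let bad : γ → Finset (ι → β) := fun R =>
    Fintype.piFinset fun T => if T ∈ M R then cand.filter (fun S => ¬ good R T S) else cand
  have hcpos : (0 : ℝ) < cand.card := by exact_mod_cast hc.card_pos
  have hbad : ∀ R ∈ Rs, ((bad R).card : ℝ) ≤ cand.card ^ Fintype.card ι * Real.exp (-a) := by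
    intro R hR
    rw [Fintype.card_piFinset, Nat.cast_prod]
    calc _ ≤ ∏ T : ι, ((cand.card : ℝ) * if T ∈ M R then Real.exp (-q) else 1) := by
          refine prod_le_prod (fun _ _ => by positivity) fun T _ => ?_
          split_ifs with hT
          · have h1 := hq R hR T hT
            have h3 : ((cand.filter (good R T)).card : ℝ)
                + (cand.filter (fun S => ¬ good R T S)).card = cand.card := by
              exact_mod_cast card_filter_add_card_filter_not (good R T)
            have h4 := Real.add_one_le_exp (-q)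
            nlinarith
          · simp
      _ = cand.card ^ Fintype.card ι * Real.exp (-(q * (M R).card)) := by
          rw [prod_mul_distrib, prod_const, card_univ, prod_ite_mem, univ_inter, prod_const,
            ← Real.exp_nat_mul]
          congr 2
          ring
      _ ≤ _ := by
          gcongr
          exact ha R hR
  have hlt : (Rs.biUnion bad).card < (Fintype.piFinset fun _ : ι => cand).card := by
    have h1 : ((Rs.biUnion bad).card : ℝ)
        ≤ Rs.card * (cand.card ^ Fintype.card ι * Real.exp (-a)) := by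
      calc ((Rs.biUnion bad).card : ℝ) ≤ ∑ R ∈ Rs, ((bad R).card : ℝ) := by
            exact_mod_cast card_biUnion_le
        _ ≤ _ := by
            rw [← nsmul_eq_mul]
            exact sum_le_card_nsmul _ _ _ hbad
    have h3 : (Rs.card : ℝ) * Real.exp (-a) < 1 := by
      rw [Real.exp_neg, ← div_eq_mul_inv, div_lt_one (Real.exp_pos _)]
      exact hRs
    have h4 : (0 : ℝ) < cand.card ^ Fintype.card ι := by positivity
    have h5 : ((Rs.biUnion bad).card : ℝ) < cand.card ^ Fintype.card ι := by nlinarith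
    rw [Fintype.card_piFinset, prod_const, card_univ]
    exact_mod_cast h5
  obtain ⟨f, hf, hf'⟩ := exists_mem_notMem_of_card_lt_card hlt
  refine ⟨f, Fintype.mem_piFinset.1 hf, fun R hR => ?_⟩
  by_contra hcon
  push Not at hcon
  refine hf' (mem_biUnion.2 ⟨R, hR, Fintype.mem_piFinset.2 fun T => ?_⟩)
  split_ifs with hT
  · exact mem_filter.2 ⟨Fintype.mem_piFinset.1 hf T, hcon T hT⟩
  · exact Fintype.mem_piFinset.1 hf T

/-- The proportion of `k`-subsets of `V` containing a given small set. -/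
theorem choose_mul_pow_le (V J : Finset U) (hJ : J ⊆ V) {κ j : ℕ} (hj : J.card ≤ j)
    (hk : j + κ ≤ V.card) :
    κ ^ j * (powersetCard (j + κ) V).card
      ≤ ((powersetCard (j + κ) V).filter fun S => J ⊆ S).card * V.card ^ j := by
  set i := J.card with hi
  set u := V.card with hu
  have h1 : (u - i).choose (j + κ - i) ≤ ((powersetCard (j + κ) V).filter fun S => J ⊆ S).card := by
    rw [← card_sdiff_of_subset hJ, ← card_powersetCard]
    refine card_le_card_of_injOn (fun S => S ∪ J) (fun S hS => ?_) (fun S hS S' hS' h => ?_)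
    · obtain ⟨h1, h2⟩ := mem_powersetCard.1 hS
      have hd : Disjoint S J := (subset_sdiff.1 h1).2
      refine mem_filter.2 ⟨mem_powersetCard.2 ⟨union_subset (subset_sdiff.1 h1).1 hJ, ?_⟩,
        subset_union_right⟩
      rw [card_union_of_disjoint hd]
      omega
    · have hd : Disjoint S J := (subset_sdiff.1 (mem_powersetCard.1 hS).1).2
      have hd' : Disjoint S' J := (subset_sdiff.1 (mem_powersetCard.1 hS').1).2
      have := congrArg (fun X => X \ J) h
      simpa [union_sdiff_cancel_right hd, union_sdiff_cancel_right hd'] using this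
  have h2 : u.choose (j + κ) * (j + κ).descFactorial i
      = u.descFactorial i * (u - i).choose (j + κ - i) := by
    rw [Nat.descFactorial_eq_factorial_mul_choose, Nat.descFactorial_eq_factorial_mul_choose,
      mul_left_comm, Nat.choose_mul (by omega : i ≤ j + κ), mul_assoc]
  have h3 : κ ^ i ≤ (j + κ).descFactorial i :=
    (Nat.pow_le_pow_left (by omega) i).trans (Nat.pow_sub_le_descFactorial _ _)
  have h4 : u.descFactorial i ≤ u ^ i := Nat.descFactorial_le_pow _ _
  have h5 : κ ^ (j - i) ≤ u ^ (j - i) := Nat.pow_le_pow_left (by omega) _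
  rw [card_powersetCard]
  have e : ∀ z : ℕ, z ^ j = z ^ i * z ^ (j - i) := fun z => by
    rw [← pow_add]; congr 1; omega
  calc κ ^ j * u.choose (j + κ) = (u.choose (j + κ) * κ ^ i) * κ ^ (j - i) := by rw [e]; ring
    _ ≤ (u.choose (j + κ) * (j + κ).descFactorial i) * u ^ (j - i) := by gcongr
    _ ≤ (u ^ i * ((powersetCard (j + κ) V).filter fun S => J ⊆ S).card) * u ^ (j - i) := by
        rw [h2]; gcongr
    _ = _ := by rw [e u]; ring

/-- The numerical heart of the gadget. -/
theorem numeric {l e ρ x u N : ℕ} (he : 1 ≤ e) (hl : 1 ≤ l) (hx : 1 ≤ x) (hu : u ≤ 2 ^ l)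
    (hρu : ρ ≤ u) (hux : u ≤ x * ρ) (hρ : 2 * (2 * e * l * (l + 2)) ≤ ρ)
    (hN : ρ.choose (2 * e * l * (l + 2)) ≤ 2 ^ (2 * e * l) * N) :
    l * ρ * u ^ (2 * e * l * (l + 2) + 2 * e * l)
      ≤ (4 * (2 * e * l * (l + 2)) * x) ^ (2 * e * l * (l + 2) + 2 * e * l) * N := by
  set m := 2 * e * l with hm
  set j := m * (l + 2) with hj
  set κ := 4 * j * x with hκ
  have hm1 : 2 * l ≤ m := by rw [hm]; nlinarith
  have hjpos : 0 < j := by positivity
  have hκpos : 0 < κ := by positivity
  clear_value κ j m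
  have h1 : (ρ - j) ^ j ≤ j ^ j * ρ.choose j :=
    calc (ρ - j) ^ j ≤ (ρ + 1 - j) ^ j := Nat.pow_le_pow_left (by omega) _
      _ ≤ ρ.descFactorial j := Nat.pow_sub_le_descFactorial _ _
      _ = j.factorial * ρ.choose j := Nat.descFactorial_eq_factorial_mul_choose _ _
      _ ≤ _ := Nat.mul_le_mul_right _ j.factorial_le_pow
  have h2 : 2 * j * u ≤ (ρ - j) * κ := by
    have : ρ ≤ 2 * (ρ - j) := by omega
    calc 2 * j * u ≤ 2 * j * (x * (2 * (ρ - j))) := by
          gcongr
          exact hux.trans (by gcongr)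
      _ = _ := by rw [hκ]; ring
  have h3 : j ^ j * (2 ^ j * u ^ j) ≤ j ^ j * (2 ^ m * (κ ^ j * N)) :=
    calc j ^ j * (2 ^ j * u ^ j) = (2 * j * u) ^ j := by rw [mul_pow, mul_pow]; ring
      _ ≤ ((ρ - j) * κ) ^ j := Nat.pow_le_pow_left h2 _
      _ = (ρ - j) ^ j * κ ^ j := mul_pow _ _ _
      _ ≤ (j ^ j * (2 ^ m * N)) * κ ^ j := by
          gcongr
          exact h1.trans (by gcongr)
      _ = _ := by ring
  have h4 := Nat.le_of_mul_le_mul_left h3 (by positivity)
  have h5 : l * ρ ≤ 2 ^ m :=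
    calc l * ρ ≤ 2 ^ l * 2 ^ l := Nat.mul_le_mul Nat.lt_two_pow_self.le (hρu.trans hu)
      _ = 2 ^ (2 * l) := by rw [← pow_add]; congr 1; ring
      _ ≤ _ := Nat.pow_le_pow_right (by norm_num) hm1
  have h6 : u ^ m ≤ 2 ^ (l * m) := by rw [pow_mul]; exact Nat.pow_le_pow_left hu _
  have h7 : 2 ^ m * (l * ρ * u ^ (j + m)) ≤ 2 ^ m * (κ ^ j * N) :=
    calc 2 ^ m * (l * ρ * u ^ (j + m)) = 2 ^ m * (l * ρ) * u ^ m * u ^ j := by rw [pow_add]; ring
      _ ≤ 2 ^ m * 2 ^ m * 2 ^ (l * m) * u ^ j := by gcongr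
      _ = 2 ^ j * u ^ j := by rw [← pow_add, ← pow_add]; congr 2; rw [hj]; ring
      _ ≤ _ := h4
  have h8 := Nat.le_of_mul_le_mul_left h7 (by positivity)
  have h9 : 1 ≤ κ ^ m := Nat.one_le_pow _ _ hκpos
  calc _ ≤ κ ^ j * N := h8
    _ = κ ^ j * 1 * N := by ring
    _ ≤ κ ^ j * κ ^ m * N := by gcongr
    _ = _ := by rw [pow_add]

/-- The gadget. -/
theorem exists_gadget [Fintype U] {l e ρ x : ℕ} (he : 1 ≤ e) (hl : 1 ≤ l) (hx : 1 ≤ x)
    (hU : Fintype.card U ≤ 2 ^ l) (hρ : 2 * (2 * e * l * (l + 2)) ≤ ρ)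
    (V : Finset U) (hV : V.card ≤ x * ρ) :
    ∃ (C : Finset U → Prop) (S : Finset U → Finset U),
      (∀ T T', C T → C T' → (T ∆ T').card ≤ 2 * e → T = T') ∧
      ∀ R ⊆ V, R.card = ρ → ∃ T, C T ∧ T ⊆ R ∧ R ⊆ S T ∧
        (S T).card ≤ ρ + 2 * e * l * (l + 3) + 8 * e * l * (l + 2) * x := by
  classical
  set j := 2 * e * l * (l + 2) + 2 * e * l with hj
  set κ := 4 * (2 * e * l * (l + 2)) * x with hκ
  have hjκ : j + κ = 2 * e * l * (l + 3) + 8 * e * l * (l + 2) * x := by rw [hj, hκ]; ring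
  by_cases hk : j + κ ≤ V.card
  swap
  · refine ⟨fun T => T = ∅, fun _ => V, fun T T' h h' _ => h.trans h'.symm, fun R hR _ =>
      ⟨∅, rfl, empty_subset _, hR, show V.card ≤ _ by omega⟩⟩
  obtain ⟨G, _, _, H, h2, hG, hH⟩ := exists_check (U := U) (by omega) hU (2 * e)
  have hu : V.card ≤ 2 ^ l := (card_le_univ V).trans hU
  have hρpos : 0 < ρ := lt_of_lt_of_le (by positivity) hρ
  have hκpos : 0 < κ := by positivity
  have hupos : (0 : ℝ) < V.card := by exact_mod_cast (by omega : 0 < V.card)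
  obtain ⟨f, hf, hcov⟩ := exists_cover (powersetCard (j + κ) V) (powersetCard_nonempty.2 hk)
    (powersetCard ρ V)
    (fun R => R.powerset.filter fun T => ∑ y ∈ T, H y = 0 ∧ (R \ T).card ≤ j)
    (fun R T S => R \ T ⊆ S) (q := (κ / V.card : ℝ) ^ j) (a := (l * ρ : ℕ))
    (fun R hR T hT => by
      have := choose_mul_pow_le V (R \ T) (sdiff_subset.trans (mem_powersetCard.1 hR).1)
        (mem_filter.1 hT).2.2 hk
      rw [div_pow, div_mul_eq_mul_div, div_le_iff₀ (by positivity)]
      exact_mod_cast this)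
    (fun R hR => by
      obtain ⟨hRV, hRc⟩ := mem_powersetCard.1 hR
      have h3 := choose_le_card_codewords h2 H hG R (2 * e * l * (l + 2))
      rw [hRc] at h3
      have := numeric he hl hx hu (hRc ▸ card_le_card hRV) hV hρ h3
      rw [div_pow, div_mul_eq_mul_div, le_div_iff₀ (by positivity)]
      exact_mod_cast this)
    (by
      rw [card_powersetCard]
      have h3 : V.card.choose ρ ≤ 2 ^ (l * ρ) :=
        (Nat.choose_le_pow _ _).trans (by rw [pow_mul]; exact Nat.pow_le_pow_left hu _)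
      have h4 : (2 : ℝ) ^ (l * ρ) < Real.exp (l * ρ : ℕ) := by
        rw [← Real.exp_one_pow]
        refine pow_lt_pow_left₀ ?_ (by norm_num) (by positivity)
        have := Real.add_one_lt_exp (x := 1) one_ne_zero
        linarith
      exact lt_of_le_of_lt (by exact_mod_cast h3) h4)
  refine ⟨fun T => ∑ y ∈ T, H y = 0, fun T => T ∪ f T, fun T T' h h' hc => ?_, fun R hR hRc => ?_⟩
  · refine symmDiff_eq_empty.1 (hH _ hc ?_)
    rw [sum_symmDiff h2, h, h', add_zero]
  · obtain ⟨T, hT, hgood⟩ := hcov R (mem_powersetCard.2 ⟨hR, hRc⟩)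
    obtain ⟨hT1, hT2, -⟩ := mem_filter.1 hT
    have hTR := mem_powerset.1 hT1
    refine ⟨T, hT2, hTR, fun y hy => ?_, ?_⟩
    · by_cases h : y ∈ T
      · exact mem_union_left _ h
      · exact mem_union_right _ (hgood (mem_sdiff.2 ⟨hy, h⟩))
    · have h3 := card_union_le T (f T)
      have h4 := (mem_powersetCard.1 (hf T)).2
      have h5 := card_le_card hTR
      change (T ∪ f T).card ≤ _
      omega

end Pool.Agent.P.MP_65d1df_lc
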