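import Pool.Agent.P.MP_65d1df_lc.Gadget

/-!
The game on faces of the cube, the nesting of gadgets, and the translation to writing rules on
lists.
-/

open Finset Function
open scoped symmDiff

namespace Pool.Agent.P.MP_65d1df_lc

variable {U : Type} [DecidableEq U]

/-- `Win B n w R`: the positions outside `R` carry the bits `w`, the `n + 1` positions of `R` are
still to come, and Alice can write so that Bob's rule `B` succeeds. -/
def Win (B : (U → Bool) → Finset U) : ℕ → (U → Bool) → Finset U → Prop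
  | 0, w, R => ∀ y ∈ R, ∀ b, y ∈ B (update w y b)
  | n + 1, w, R => ∀ y ∈ R, ∃ b, Win B n (update w y b) (R.erase y)

theorem Win.congr {B : (U → Bool) → Finset U} {n : ℕ} {w w' : U → Bool} {R : Finset U}
    (hR : R.card = n + 1) (hw : ∀ y, y ∉ R → w y = w' y) (h : Win B n w R) : Win B n w' R := by
  induction n generalizing w w' R with
  | zero =>
    intro y hy b
    have : update w' y b = update w y b := by
      funext z
      by_cases hz : z = y
      · subst hz; simp
      · rw [update_of_ne hz, update_of_ne hz]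
        refine (hw z fun hzR => hz ?_).symm
        exact card_le_one.1 hR.le z hzR y hy
    rw [this]
    exact h y hy b
  | succ n ih =>
    intro y hy
    obtain ⟨b, hb⟩ := h y hy
    refine ⟨b, ih (by rw [card_erase_of_mem hy, hR]; rfl) (fun z hz => ?_) hb⟩
    by_cases hzy : z = y
    · subst hzy; simp
    · rw [update_of_ne hzy, update_of_ne hzy]
      exact hw z fun hzR => hz (mem_erase.2 ⟨hzy, hzR⟩)

/-- Alice may keep writing a fixed word until `n + 1` positions remain. -/
theorem win_of_forall_subset {B : (U → Bool) → Finset U} {n : ℕ} {w : U → Bool} (d : ℕ)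
    {R : Finset U} (hR : R.card = n + 1 + d)
    (h : ∀ R' ⊆ R, R'.card = n + 1 → Win B n w R') : Win B (n + d) w R := by
  induction d generalizing R with
  | zero => exact h R subset_rfl hR
  | succ d ih =>
    intro y hy
    refine ⟨w y, ?_⟩
    rw [update_eq_self]
    exact ih (by rw [card_erase_of_mem hy, hR]; rfl) fun R' hR' =>
      h R' (hR'.trans (erase_subset _ _))

/-- Flip the bits on `T`. -/
def flipOn (T : Finset U) (w : U → Bool) : U → Bool := fun y => xor (w y) (decide (y ∈ T))

theorem flipOn_flipOn (T : Finset U) (w : U → Bool) : flipOn T (flipOn T w) = w := by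
  funext y; simp [flipOn]

theorem flipOn_update (T : Finset U) (w : U → Bool) (y : U) (b : Bool) :
    flipOn T (update w y b) = update (flipOn T w) y (xor b (decide (y ∈ T))) := by
  funext z
  by_cases hz : z = y
  · subst hz; simp [flipOn]
  · simp [flipOn, update_of_ne hz]

theorem Win.transfer {B B' : (U → Bool) → Finset U} {T R₀ : Finset U}
    (hB : ∀ w : U → Bool, (∀ y, y ∉ R₀ → w y = false) → B (flipOn T w) = B' w)
    {n : ℕ} {w : U → Bool} {R : Finset U} (hR : R ⊆ R₀) (hw : ∀ y, y ∉ R₀ → w y = false)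
    (h : Win B' n w R) : Win B n (flipOn T w) R := by
  have hup : ∀ (w : U → Bool) (y : U) (b : Bool), y ∈ R₀ → (∀ y, y ∉ R₀ → w y = false) →
      ∀ z, z ∉ R₀ → update w y b z = false := fun w y b hy hw z hz => by
    rw [update_of_ne (by rintro rfl; exact hz hy)]
    exact hw z hz
  induction n generalizing w R with
  | zero =>
    intro y hy b
    have : update (flipOn T w) y b = flipOn T (update w y (xor b (decide (y ∈ T)))) := by
      rw [flipOn_update]; simp
    rw [this, hB _ (hup w y _ (hR hy) hw)]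
    exact h y hy _
  | succ n ih =>
    intro y hy
    obtain ⟨b, hb⟩ := h y hy
    refine ⟨xor b (decide (y ∈ T)), ?_⟩
    rw [← flipOn_update]
    exact ih ((erase_subset _ _).trans hR) (hup w y b (hR hy) hw) hb

/-- `Good V ρ K`: some rule of Bob of cost at most `K` wins from every position in which all
written bits are `0` and the remaining set is a `ρ`-subset of `V`. -/
def Good (V : Finset U) (ρ K : ℕ) : Prop :=
  ∃ B : (U → Bool) → Finset U, (∀ w, (B w).card ≤ K) ∧
    ∀ R ⊆ V, R.card = ρ → Win B (ρ - 1) (fun _ => false) R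

theorem good_one (V : Finset U) {K : ℕ} (h : V.card ≤ K) : Good V 1 K :=
  ⟨fun _ => V, fun _ => h, fun _ hR _ _ hy _ => hR hy⟩

theorem good_step [Fintype U] {e ρ k K : ℕ} (he : 1 ≤ e) (heρ : e ≤ ρ) (V : Finset U)
    (C : Finset U → Prop) (S : Finset U → Finset U)
    (hC : ∀ T T', C T → C T' → (T ∆ T').card ≤ 2 * e → T = T')
    (hS : ∀ R ⊆ V, R.card = ρ → ∃ T, C T ∧ T ⊆ R ∧ R ⊆ S T ∧ (S T).card ≤ k)
    (ih : ∀ W : Finset U, W.card ≤ k → Good W e K) : Good V ρ K := by
  classical
  have h1 : ∀ T : Finset U, ∃ B : (U → Bool) → Finset U, (∀ w, (B w).card ≤ K) ∧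
      ((S T).card ≤ k → ∀ R ⊆ S T, R.card = e → Win B (e - 1) (fun _ => false) R) := by
    intro T
    by_cases h : (S T).card ≤ k
    · obtain ⟨B, hB, hB'⟩ := ih _ h
      exact ⟨B, hB, fun _ => hB'⟩
    · exact ⟨fun _ => ∅, fun _ => by simp, fun h' => absurd h' h⟩
  choose Bi hBi hwin using h1
  let near : (U → Bool) → Finset U → Prop := fun v T =>
    C T ∧ (univ.filter fun y => flipOn T v y = true).card ≤ e
  have huniq : ∀ v T T', near v T → near v T' → T = T' := by
    intro v T T' h h'
    refine hC T T' h.1 h'.1 ?_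
    have hsub : T ∆ T' ⊆ (univ.filter fun y => flipOn T v y = true)
        ∪ (univ.filter fun y => flipOn T' v y = true) := by
      intro y hy
      rw [mem_symmDiff] at hy
      simp only [flipOn, mem_union]
      rcases hy with ⟨h1, h2⟩ | ⟨h1, h2⟩ <;> cases v y <;> simp [h1, h2]
    have := (card_le_card hsub).trans (card_union_le _ _)
    have := h.2
    have := h'.2
    omega
  let B : (U → Bool) → Finset U := fun v =>
    if h : ∃ T, near v T then Bi h.choose (flipOn h.choose v) else ∅
  refine ⟨B, fun v => ?_, fun R hR hRc => ?_⟩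
  · simp only [B]
    split_ifs
    · exact hBi _ _
    · simp
  obtain ⟨T, hCT, hTR, hRS, hSk⟩ := hS R hR hRc
  have h2 : Win B (e - 1 + (ρ - e)) (flipOn T fun _ => false) R := by
    refine win_of_forall_subset _ (by omega) fun R' hR' hc => ?_
    have hc' : R'.card = e := by omega
    refine Win.transfer (R₀ := R') (fun w hw => ?_) subset_rfl (fun _ _ => rfl)
      (hwin T hSk R' (hR'.trans hRS) hc')
    have hn : near (flipOn T w) T := by
      refine ⟨hCT, ?_⟩
      rw [flipOn_flipOn, ← hc']
      refine card_le_card fun y hy => ?_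
      by_contra hy'
      have := (mem_filter.1 hy).2
      rw [hw y hy'] at this
      exact Bool.false_ne_true this
    have hex : ∃ T', near (flipOn T w) T' := ⟨T, hn⟩
    simp only [B]
    rw [dif_pos hex, huniq _ _ _ hex.choose_spec hn, flipOn_flipOn]
  have e1 : e - 1 + (ρ - e) = ρ - 1 := by omega
  rw [e1] at h2
  refine h2.congr (by omega) fun y hy => ?_
  have : y ∉ T := fun h => hy (hTR h)
  simp [flipOn, this]

theorem good_pow [Fintype U] {l θ t : ℕ} (hl : 1 ≤ l) (hU : Fintype.card U ≤ 2 ^ l)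
    (ht : 10 * l ^ 2 + 22 * l + 1 ≤ t) (hθ : t ≤ θ) (s : ℕ) :
    ∀ x, θ ≤ x → ∀ V : Finset U, V.card ≤ x * θ ^ s → Good V (θ ^ s) (x * t ^ s) := by
  have ht1 : 1 ≤ t := by omega
  have hθ1 : 1 ≤ θ := ht1.trans hθ
  induction s with
  | zero => exact fun x _ V hV => good_one V (by simpa using hV)
  | succ s ih =>
    intro x hx V hV
    have he : 1 ≤ θ ^ s := Nat.one_le_pow _ _ hθ1
    have hx1 : 1 ≤ x := hθ1.trans hx
    generalize hE : θ ^ s = e at ih he
    have hρ : θ ^ (s + 1) = θ * e := by rw [pow_succ, hE, mul_comm]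
    rw [hρ] at hV ⊢
    obtain ⟨C, S, hC, hS⟩ := exists_gadget (ρ := θ * e) he hl hx1 hU
      (by have : 4 * l * (l + 2) ≤ θ := by nlinarith
          nlinarith) V hV
    refine good_step he (by nlinarith) V C S hC hS fun W hW => ?_
    have := ih (x * t) (by nlinarith) W (hW.trans ?_)
    · rwa [mul_assoc, ← pow_succ'] at this
    have h1 : θ * e ≤ x * e := by gcongr
    have h2 : 2 * e * l * (l + 3) ≤ 2 * e * l * (l + 3) * x := Nat.le_mul_of_pos_right _ hx1
    calc _ ≤ x * e + 2 * e * l * (l + 3) * x + 8 * e * l * (l + 2) * x := by gcongr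
      _ = x * (10 * l ^ 2 + 22 * l + 1) * e := by ring
      _ ≤ _ := by gcongr

/-- A protocol of cost `θ t^L` on `θ^(L+1)` positions. -/
theorem exists_win {m l θ t L : ℕ} (hl : 1 ≤ l) (hm : m + 1 = θ ^ (L + 1)) (hU : m + 1 ≤ 2 ^ l)
    (ht : 10 * l ^ 2 + 22 * l + 1 ≤ t) (hθ : t ≤ θ) :
    ∃ B : (Fin (m + 1) → Bool) → Finset (Fin (m + 1)), (∀ w, (B w).card ≤ θ * t ^ L) ∧
      Win B m (fun _ => false) univ := by
  obtain ⟨B, hB, hwin⟩ := good_pow (U := Fin (m + 1)) hl (by simpa using hU) ht hθ L θ le_rfl univ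
    (by rw [card_univ, Fintype.card_fin, hm, pow_succ'])
  have hθ1 : 1 ≤ θ := by omega
  have he : 1 ≤ θ ^ L := Nat.one_le_pow _ _ hθ1
  have hle : θ ^ L ≤ m + 1 := by rw [hm]; exact Nat.pow_le_pow_right hθ1 (by omega)
  refine ⟨B, hB, ?_⟩
  have := win_of_forall_subset (B := B) (n := θ ^ L - 1) (w := fun _ => false) (m + 1 - θ ^ L)
    (R := univ) (by rw [card_univ, Fintype.card_fin]; omega)
    fun R' hR' hc => hwin R' hR' (by omega)
  rwa [show θ ^ L - 1 + (m + 1 - θ ^ L) = m by omega] at this

/-- One move of Alice. -/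
noncomputable def move (B : (U → Bool) → Finset U) (p : (U → Bool) × Finset U) (y : U) :
    (U → Bool) × Finset U := by
  classical
  exact (update p.1 y (decide (Win B (p.2.card - 2) (update p.1 y true) (p.2.erase y))), p.2.erase y)

theorem win_move {B : (U → Bool) → Finset U} {n : ℕ} {p : (U → Bool) × Finset U} {y : U}
    (hc : p.2.card = n + 2) (hy : y ∈ p.2) (h : Win B (n + 1) p.1 p.2) :
    Win B n (move B p y).1 (move B p y).2 := by
  classical
  obtain ⟨b, hb⟩ := h y hy
  simp only [move, hc, Nat.add_sub_cancel]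
  by_cases h1 : Win B n (update p.1 y true) (p.2.erase y)
  · simp [h1]
  · cases b
    · simpa [h1] using hb
    · exact absurd hb h1

theorem exists_protocol {m : ℕ} {B : (Fin (m + 1) → Bool) → Finset (Fin (m + 1))}
    (h : Win B m (fun _ => false) univ) :
    ∃ A : List (Fin (m + 1)) → Bool, ∀ σ : Equiv.Perm (Fin (m + 1)), ∀ b : Bool,
      σ (Fin.last m) ∈ B (fun j : Fin (m + 1) =>
        if σ.symm j = Fin.last m then b
        else A (List.map σ ((List.finRange (m + 1)).take ((σ.symm j).val + 1)))) := by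
  let run : List (Fin (m + 1)) → (Fin (m + 1) → Bool) × Finset (Fin (m + 1)) :=
    fun l => l.foldl (move B) (fun _ => false, univ)
  refine ⟨fun l => (run l).1 (l.getLastD 0), fun σ b => ?_⟩
  let pre : ℕ → List (Fin (m + 1)) := fun i => List.map σ ((List.finRange (m + 1)).take i)
  have hpre : ∀ i (hi : i < m + 1), pre (i + 1) = pre i ++ [σ ⟨i, hi⟩] := by
    intro i hi
    simp only [pre]
    rw [List.take_succ_eq_append_getElem (by simpa using hi), List.map_append]
    simp
  have hrun : ∀ i (hi : i < m + 1), run (pre (i + 1)) = move B (run (pre i)) (σ ⟨i, hi⟩) := by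
    intro i hi
    rw [hpre i hi]
    simp [run]
  have key : ∀ i, i ≤ m → (∀ j, j ∈ (run (pre i)).2 ↔ i ≤ (σ.symm j).val) ∧
      (run (pre i)).2.card = m - i + 1 ∧
      (∀ j, (σ.symm j).val < i → (run (pre i)).1 j = (run (pre ((σ.symm j).val + 1))).1 j) ∧
      Win B (m - i) (run (pre i)).1 (run (pre i)).2 := by
    intro i
    induction i with
    | zero =>
      intro _
      refine ⟨by simp [run, pre], by simp [run, pre], by simp, by simpa [run, pre] using h⟩
    | succ i ih =>
      intro hi
      obtain ⟨h1, h2, h3, h4⟩ := ih (by omega)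
      have hi' : i < m + 1 := by omega
      have hy : σ ⟨i, hi'⟩ ∈ (run (pre i)).2 := (h1 _).2 (by simp)
      have hne : ∀ j, (σ.symm j).val ≠ i → j ≠ σ ⟨i, hi'⟩ := by
        rintro j hj rfl
        simp at hj
      refine ⟨fun j => ?_, ?_, fun j hj => ?_, ?_⟩
      · rw [hrun i hi']
        simp only [move, mem_erase, h1]
        constructor
        · rintro ⟨h5, h6⟩
          refine Nat.succ_le_of_lt (lt_of_le_of_ne h6 fun h7 => h5 ?_)
          rw [← σ.symm_apply_eq]
          exact Fin.ext h7.symm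
        · intro h5
          exact ⟨hne j (by omega), by omega⟩
      · rw [hrun i hi']
        simp only [move]
        rw [card_erase_of_mem hy, h2]
        omega
      · by_cases h5 : (σ.symm j).val = i
        · rw [h5]
        · rw [← h3 j (by omega), hrun i hi']
          simp only [move]
          rw [update_of_ne (hne j h5)]
      · rw [hrun i hi']
        refine win_move (by omega) hy ?_
        rwa [show m - (i + 1) + 1 = m - i by omega]
  obtain ⟨h1, -, h3, h4⟩ := key m le_rfl
  rw [Nat.sub_self] at h4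
  have := h4 (σ (Fin.last m)) ((h1 _).2 (by simp)) b
  convert this using 2
  funext j
  split_ifs with hj
  · rw [σ.symm_apply_eq] at hj
    rw [hj, update_self]
  · have hlt : (σ.symm j).val < m := Fin.val_lt_last hj
    rw [update_of_ne (fun h => hj (by rw [h]; simp)), h3 j hlt]
    change (run (pre ((σ.symm j).val + 1))).1 ((pre ((σ.symm j).val + 1)).getLastD 0) = _
    rw [hpre _ (σ.symm j).2]
    simp

/-- For every `L` there are arbitrarily large `θ` with a protocol of cost `θ²` on `θ^(L+1)`
positions. -/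
theorem exists_cheap (L N : ℕ) : ∃ θ m : ℕ, N ≤ θ ∧ m + 1 = θ ^ (L + 1) ∧
    ∃ B : (Fin (m + 1) → Bool) → Finset (Fin (m + 1)), (∀ w, (B w).card ≤ θ ^ 2) ∧
      Win B m (fun _ => false) univ := by
  have h := tendsto_pow_const_div_const_pow_of_one_lt (2 * (L + 1)) (r := 2) (by norm_num)
  have hc : (0 : ℝ) < 1 / (33 * (L + 1) ^ 2) ^ (L + 1) := by positivity
  obtain ⟨w, hw, hw1⟩ := ((h.eventually (gt_mem_nhds hc)).and
    (Filter.eventually_ge_atTop (N + 1))).exists
  have hw2 : (33 * ((L + 1) * w) ^ 2) ^ (L + 1) ≤ 2 ^ w := by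
    rw [div_lt_div_iff₀ (by positivity) (by positivity), one_mul] at hw
    have : ((33 * ((L + 1) * w) ^ 2) ^ (L + 1) : ℝ) ≤ 2 ^ w := by
      refine le_of_eq_of_le ?_ hw.le
      rw [pow_mul, ← mul_pow]
      congr 1
      ring
    exact_mod_cast this
  set l := (L + 1) * w with hl
  have hl1 : 1 ≤ l := Nat.mul_pos (by omega) (by omega)
  set t := 33 * l ^ 2 with ht
  have ht1 : 1 ≤ t := by rw [ht]; nlinarith
  have hpos : 1 ≤ (2 ^ w) ^ (L + 1) := Nat.one_le_pow _ _ (by positivity)
  have hm : (2 ^ w) ^ (L + 1) - 1 + 1 = (2 ^ w) ^ (L + 1) := by omega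
  have htθ : t ≤ 2 ^ w := le_trans (Nat.le_self_pow (by omega) _) hw2
  obtain ⟨B, hB, hwin⟩ := exists_win (l := l) (t := t) hl1 hm
    (by rw [hm, ← pow_mul, mul_comm]) (by rw [ht]; nlinarith) htθ
  refine ⟨2 ^ w, _, ?_, hm, B, fun v => (hB v).trans ?_, hwin⟩
  · have := Nat.lt_two_pow_self (n := w)
    omega
  · rw [sq]
    exact Nat.mul_le_mul_left _ ((Nat.pow_le_pow_right ht1 (Nat.le_succ L)).trans hw2)

end Pool.Agent.P.MP_65d1df_lc
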