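import Pool.Agent.P.MP_65d1df_lc.Game

/-! Nested gadgets with growing stage lengths: a protocol of cost `t^(s+1)` for every length. -/

open Finset Function

namespace Pool.Agent.P.MP_65d1df_lc

variable {U : Type} [DecidableEq U]

theorem good_geo [Fintype U] {l t : ℕ} (hl : 1 ≤ l) (hU : Fintype.card U ≤ 2 ^ l)
    (ht : 10 * l ^ 2 + 22 * l + 1 ≤ t) (s : ℕ) :
    ∀ i N, 1 ≤ i → 2 * N + s ≤ s * (2 * i + s) → ∀ V : Finset U, V.card ≤ t ^ i * t ^ N →
      Good V (t ^ N) (t ^ (i + s)) := by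
  have ht1 : 1 ≤ t := by omega
  have base : ∀ s i, ∀ V : Finset U, V.card ≤ t ^ i * t ^ 0 → Good V (t ^ 0) (t ^ (i + s)) :=
    fun s i V hV => good_one V ((by simpa using hV : V.card ≤ t ^ i).trans
      (Nat.pow_le_pow_right ht1 (by omega)))
  induction s with
  | zero =>
    intro i N _ hN V hV
    obtain rfl : N = 0 := by omega
    exact base _ _ V hV
  | succ s ih =>
    intro i N hi hN V hV
    rcases Nat.eq_zero_or_pos N with rfl | hN0
    · exact base _ _ V hV
    obtain ⟨a, N', ha, hai, rfl, hN'⟩ :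
        ∃ a N', 1 ≤ a ∧ a ≤ i ∧ N = a + N' ∧ 2 * N' + s ≤ s * (2 * (i + 1) + s) := by
      rcases le_total N i with h | h
      · exact ⟨N, 0, hN0, h, rfl, by nlinarith⟩
      · obtain ⟨N', rfl⟩ := Nat.exists_eq_add_of_le h
        exact ⟨i, N', hi, le_rfl, rfl, by nlinarith⟩
    have he : 1 ≤ t ^ N' := Nat.one_le_pow _ _ ht1
    have hθ : t ≤ t ^ a := Nat.le_self_pow (by omega) _
    have hx : t ^ a ≤ t ^ i := Nat.pow_le_pow_right ht1 hai
    have ih' := ih (i + 1) N' (by omega) hN'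
    rw [pow_succ, show i + 1 + s = i + (s + 1) by ring] at ih'
    rw [pow_add t a] at hV ⊢
    generalize t ^ N' = e at *
    generalize t ^ a = θ at *
    generalize t ^ i = x at *
    have hx1 : 1 ≤ x := by omega
    obtain ⟨C, S, hC, hS⟩ := exists_gadget (ρ := θ * e) he hl hx1 hU
      (by have : 4 * l * (l + 2) ≤ θ := by nlinarith
          nlinarith) V hV
    refine good_step he (by nlinarith) V C S hC hS fun W hW => ih' W (hW.trans ?_)
    have h1 : θ * e ≤ x * e := by gcongr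
    have h2 : 2 * e * l * (l + 3) ≤ 2 * e * l * (l + 3) * x := Nat.le_mul_of_pos_right _ hx1
    calc _ ≤ x * e + 2 * e * l * (l + 3) * x + 8 * e * l * (l + 2) * x := by gcongr
      _ = x * (10 * l ^ 2 + 22 * l + 1) * e := by ring
      _ ≤ _ := by gcongr

/-- A winning rule of cost `t ^ (√(2 log_t n) + 2)` on `n = m + 1` positions. -/
theorem exists_win_all {m l t : ℕ} (hl : 1 ≤ l) (hU : m + 1 ≤ 2 ^ l)
    (ht : 10 * l ^ 2 + 22 * l + 1 ≤ t) :
    ∃ B : (Fin (m + 1) → Bool) → Finset (Fin (m + 1)),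
      (∀ w, (B w).card ≤ t ^ (Nat.sqrt (2 * Nat.log t (m + 1)) + 2)) ∧
      Win B m (fun _ => false) univ := by
  have ht2 : 1 < t := by omega
  set N := Nat.log t (m + 1) with hN
  have h1 : t ^ N ≤ m + 1 := Nat.pow_log_le_self t (by omega)
  have h2 : m + 1 < t ^ (N + 1) := Nat.lt_pow_succ_log_self ht2 _
  have h3 := Nat.lt_succ_sqrt (2 * N)
  obtain ⟨B, hB, hwin⟩ := good_geo (U := Fin (m + 1)) hl (by simpa using hU) ht
    (Nat.sqrt (2 * N) + 1) 1 N le_rfl (by simp only [Nat.succ_eq_add_one] at h3; nlinarith) univ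
    (by rw [card_univ, Fintype.card_fin, pow_one, ← pow_succ']; exact h2.le)
  have he : 1 ≤ t ^ N := Nat.one_le_pow _ _ (by omega)
  refine ⟨B, fun w => (hB w).trans_eq (by congr 1; ring), ?_⟩
  have := win_of_forall_subset (B := B) (n := t ^ N - 1) (w := fun _ => false) (m + 1 - t ^ N)
    (R := univ) (by rw [card_univ, Fintype.card_fin]; omega)
    fun R' hR' hc => hwin R' hR' (by omega)
  rwa [show t ^ N - 1 + (m + 1 - t ^ N) = m by omega] at this

theorem rate_real {ε X Y T : ℝ} (hε : 0 < ε) (hY : 10 ≤ Y) (h1 : 5 ≤ ε * Y) (h2 : 200 ≤ ε ^ 2 * Y)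
    (hX : Y ^ 2 / 2 ≤ X) (hT : T ≤ 2 * Y + 5) :
    √(2 * X * T) + 2 * T ≤ (2 + ε) * √(X * Y) := by
  have hX0 : 0 ≤ X := le_trans (by positivity) hX
  have hXY : 0 ≤ X * Y := by positivity
  have a1 : √(2 * X * T) ≤ (2 + ε / 2) * √(X * Y) := by
    rw [Real.sqrt_le_left (by positivity), mul_pow, Real.sq_sqrt hXY]
    have : 2 * T ≤ (2 + ε / 2) ^ 2 * Y := by nlinarith
    nlinarith
  have a2 : 5 * Y ≤ ε / 2 * √(X * Y) := by
    refine le_of_sq_le_sq ?_ (by positivity)
    rw [mul_pow (ε / 2), Real.sq_sqrt hXY]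
    have b1 : 100 * Y ≤ ε ^ 2 * X := by
      have : ε ^ 2 * (Y ^ 2 / 2) ≤ ε ^ 2 * X := by gcongr
      nlinarith
    nlinarith
  linarith

theorem rate_bound {ε : ℝ} (hε : 0 < ε) : ∀ᶠ n : ℕ in Filter.atTop, ∃ l t : ℕ, 1 ≤ l ∧ n ≤ 2 ^ l ∧
    10 * l ^ 2 + 22 * l + 1 ≤ t ∧ ((t ^ (Nat.sqrt (2 * Nat.log t n) + 2) : ℕ) : ℝ) ≤
      Real.exp ((2 + ε) * √(Real.log n * Real.log (Real.log n))) := by
  have hX := Real.tendsto_log_atTop.comp tendsto_natCast_atTop_atTop
  have hY := Real.tendsto_log_atTop.comp hX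
  filter_upwards [hX.eventually_ge_atTop 2, hY.eventually_ge_atTop 10,
    hY.eventually_ge_atTop (5 / ε), hY.eventually_ge_atTop (200 / ε ^ 2),
    Filter.eventually_ge_atTop 2] with n hX2 hY1 hY2 hY3 hn
  simp only [Function.comp] at hX2 hY1 hY2 hY3
  set X := Real.log n with hXd
  set Y := Real.log X with hYd
  set l := Nat.log 2 n + 1 with hl
  have hn0 : (0 : ℝ) < n := by positivity
  have hl2 : (l : ℝ) ≤ 2 * X := by
    have e1 : ((2 ^ Nat.log 2 n : ℕ) : ℝ) ≤ n := by exact_mod_cast Nat.pow_log_le_self 2 (by omega)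
    have e2 := Real.log_le_log (by positivity) e1
    rw [Nat.cast_pow, Real.log_pow, Nat.cast_ofNat] at e2
    have e3 := Real.log_two_gt_d9
    have e4 : (0 : ℝ) ≤ Nat.log 2 n := by positivity
    rw [hl]
    push_cast
    nlinarith
  have hl1 : 1 ≤ l := by omega
  refine ⟨l, 33 * l ^ 2, hl1, (Nat.lt_pow_succ_log_self (by norm_num) n).le, by nlinarith, ?_⟩
  set t := 33 * l ^ 2 with ht
  have ht1 : 1 < t := by nlinarith
  have ht0 : (0 : ℝ) < t := by positivity
  have hT0 : 0 ≤ Real.log t := Real.log_natCast_nonneg t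
  have hT : Real.log t ≤ 2 * Y + 5 := by
    have e1 : (t : ℝ) ≤ Real.exp 5 * X ^ 2 := by
      have e2 : (132 : ℝ) ≤ Real.exp 5 := by
        have := Real.exp_one_gt_d9
        rw [show (5 : ℝ) = (5 : ℕ) * 1 by norm_num, Real.exp_nat_mul]
        exact le_trans (by norm_num) (pow_le_pow_left₀ (by norm_num) this.le 5)
      have e3 : (l : ℝ) ^ 2 ≤ (2 * X) ^ 2 := by gcongr
      rw [ht]
      push_cast
      nlinarith
    have e2 := Real.log_le_log ht0 e1
    rw [Real.log_mul (by positivity) (by positivity), Real.log_exp, Real.log_pow] at e2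
    push_cast at e2
    linarith
  have hN : (Nat.log t n : ℝ) * Real.log t ≤ X := by
    have e1 : ((t ^ Nat.log t n : ℕ) : ℝ) ≤ n := by exact_mod_cast Nat.pow_log_le_self t (by omega)
    have e2 := Real.log_le_log (by positivity) e1
    rwa [Nat.cast_pow, Real.log_pow] at e2
  have hs : (Nat.sqrt (2 * Nat.log t n) : ℝ) * Real.log t ≤ √(2 * X * Real.log t) := by
    refine Real.le_sqrt_of_sq_le ?_
    have e1 : ((Nat.sqrt (2 * Nat.log t n) : ℕ) : ℝ) ^ 2 ≤ 2 * (Nat.log t n : ℝ) := by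
      exact_mod_cast Nat.sqrt_le' _
    calc _ = (Nat.sqrt (2 * Nat.log t n) : ℝ) ^ 2 * Real.log t * Real.log t := by ring
      _ ≤ 2 * (Nat.log t n : ℝ) * Real.log t * Real.log t := by gcongr
      _ = 2 * ((Nat.log t n : ℝ) * Real.log t) * Real.log t := by ring
      _ ≤ _ := by gcongr
  have hXY : Y ^ 2 / 2 ≤ X := by
    have e1 := Real.pow_div_factorial_le_exp Y (by linarith) 2
    rw [hYd, Real.exp_log (by linarith)] at e1
    simpa using e1
  have key := rate_real hε hY1 (by rwa [div_le_iff₀' hε] at hY2)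
    (by rwa [div_le_iff₀' (by positivity)] at hY3) hXY hT
  rw [Nat.cast_pow, ← Real.exp_log ht0, ← Real.exp_nat_mul, Real.exp_le_exp]
  push_cast
  linarith

end Pool.Agent.P.MP_65d1df_lc
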